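import Pool.Agent.Q72.SP.Main

/-!
# Small products on components of a common-value image

Q1 is true. Let `f` be entire and not a monomial, `phi f z = z f'(z) / f(z)`, and let `T` be
countable. Suppose that `|s|` is bounded below on a component `K` of `I \ T`. The closure `S` of the
set of all points `(z, w)` over `K` is a closed analytic curve on which `|z w|` is bounded below.
One minimises `|w| |z| ^ p` on `S` outside the unit disc for `p > 1`, inside the unit disc for
`p < 1`, and lets `p` tend to `1`: somewhere a function `|w| |z| ^ p` has a local minimum on `S`.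
On a local branch (Puiseux) the function `w z ^ p` is then constant, and the whole spiral
`(z₁ e ^ ζ, w₁ e ^ (- p ζ))` lies on the curve. So `phi f` tends to the order of `f` at `0` at
infinity, `f` has polynomial growth of this order and is a monomial.
-/

set_option autoImplicit false

open Filter Topology Set Complex Metric ComplexConjugate

namespace Pool.Agent.Results.MP_d0f9b4_an.SmallProducts

/-- `z f'(z) / f(z)`. -/
noncomputable def logDer (f : ℂ → ℂ) (z : ℂ) : ℂ := z * deriv f z / f z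

/-- The fibre `F(s, a)`, for `x = (s, a)`. -/
def fibre (f : ℂ → ℂ) (x : ℂ × ℂ) : Set (ℂ × ℂ) :=
  {p | p.1 * p.2 = x.1 ∧ (f p.1 ≠ 0 ∧ logDer f p.1 = x.2) ∧
    (f (conj p.2) ≠ 0 ∧ conj (logDer f (conj p.2)) = x.2)}

/-- The set `I` of all `(s, a)` with `s ≠ 0`, `a ≠ 0`, `a` different from the order of vanishing of
`f` at `0`, and with nonempty fibre. -/
def valueSet (f : ℂ → ℂ) : Set (ℂ × ℂ) :=
  {x | x.1 ≠ 0 ∧ x.2 ≠ 0 ∧ x.2 ≠ (analyticOrderNatAt f 0 : ℂ) ∧ (fibre f x).Nonempty}

/-- Admissible exceptional sets. -/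
structure Admissible (f : ℂ → ℂ) (T : Set (ℂ × ℂ)) : Prop where
  countable : T.Countable
  locallyFinite : ∀ x ∈ valueSet f, ∃ U ∈ 𝓝 x, (T ∩ U).Finite
  locallyConstant : ∀ x ∈ valueSet f \ T,
    ∀ᶠ y in 𝓝[valueSet f \ T] x, (fibre f y).encard = (fibre f x).encard

/-- `f` is a monomial `c z ^ m` (`c = 0` is allowed). -/
def IsMonomial (f : ℂ → ℂ) : Prop := ∃ (c : ℂ) (m : ℕ), ∀ z, f z = c * z ^ m

open Pool.Agent.Q72.SP

theorem nondeg {f : ℂ → ℂ} (hf : Differentiable ℂ f) (hmon : ¬ IsMonomial f) : Nondeg f := by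
  have h0 : ¬ ∀ z, f z = 0 := by
    intro h
    exact hmon ⟨0, 0, fun z => by rw [h z, zero_mul]⟩
  refine ⟨hf, h0, ?_⟩
  intro a ha
  apply hmon
  obtain ⟨δ, hδ, hδ2⟩ := near_zero hf h0
  set m := analyticOrderNatAt f 0 with hm
  have hfin : analyticOrderAt f 0 ≠ ⊤ := by
    rw [Ne, analyticOrderAt_eq_top]
    intro h
    apply h0
    intro z
    have h2 : AnalyticOnNhd ℂ f univ := fun z _ => hf.analyticAt z
    have := h2.eqOn_zero_of_preconnected_of_eventuallyEq_zero isPreconnected_univ (mem_univ 0) h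
    exact this (mem_univ z)
  have hmle : (m : ℕ∞) ≤ analyticOrderAt f 0 := by
    rw [hm, Nat.cast_analyticOrderNatAt hfin]
  obtain ⟨h1, b, hb, hb2⟩ := hδ2 ((δ / 2 : ℝ) : ℂ) (by
      exact_mod_cast (by positivity : δ / 2 ≠ 0)) (by
      rw [Complex.norm_real, Real.norm_of_nonneg (by positivity)]; linarith)
  have hab : a = b := mul_right_cancel₀ h1 ((ha _).symm.trans hb)
  obtain ⟨c, hc⟩ := mono_of_growth hf m hmle one_pos (fun z _ => ⟨a, ha z, by rw [hab]; exact hb2⟩)
  exact ⟨c, m, hc⟩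

/-- the reflected function -/
theorem refl_diff {f : ℂ → ℂ} (hf : Differentiable ℂ f) :
    Differentiable ℂ (conj ∘ f ∘ conj) := fun _ => differentiableAt_conj_conj_iff.2 (hf _)

theorem refl_iter (f : ℂ → ℂ) (n : ℕ) :
    iteratedDeriv n (conj ∘ f ∘ conj) = conj ∘ iteratedDeriv n f ∘ conj := by
  induction n with
  | zero => simp only [iteratedDeriv_zero]
  | succ n ih => rw [iteratedDeriv_succ, ih, deriv_conj_conj, iteratedDeriv_succ]

theorem refl_order {f : ℂ → ℂ} (hf : Differentiable ℂ f) :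
    analyticOrderNatAt (conj ∘ f ∘ conj) 0 = analyticOrderNatAt f 0 := by
  have key : ∀ n : ℕ, (n : ℕ∞) ≤ analyticOrderAt (conj ∘ f ∘ conj) 0 ↔
      (n : ℕ∞) ≤ analyticOrderAt f 0 := by
    intro n
    rw [natCast_le_analyticOrderAt_iff_iteratedDeriv_eq_zero ((refl_diff hf).analyticAt 0),
      natCast_le_analyticOrderAt_iff_iteratedDeriv_eq_zero (hf.analyticAt 0)]
    apply forall_congr'
    intro i
    apply forall_congr'
    intro _
    rw [refl_iter]
    simp
  have : analyticOrderAt (conj ∘ f ∘ conj) 0 = analyticOrderAt f 0 :=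
    ENat.eq_of_forall_natCast_le_iff key
  rw [analyticOrderNatAt, analyticOrderNatAt, this]

theorem phi_refl (f : ℂ → ℂ) (w : ℂ) :
    phi (conj ∘ f ∘ conj) w = conj (logDer f (conj w)) := by
  rw [phi, deriv_conj_conj, logDer]
  simp

theorem general (f : ℂ → ℂ) (hf : Differentiable ℂ f) (hmon : ¬ IsMonomial f)
    (T : Set (ℂ × ℂ)) (hT : T.Countable) (x : ℂ × ℂ) (hx : x ∈ valueSet f \ T) (η : ℝ)
    (hη : 0 < η) :
    ∃ y ∈ connectedComponentIn (valueSet f \ T) x, ‖y.1‖ < η ^ 2 := by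
  by_contra hcon
  push Not at hcon
  set g : ℂ → ℂ := conj ∘ f ∘ conj with hg
  have hgd : Differentiable ℂ g := refl_diff hf
  have hgm : ¬ IsMonomial g := by
    rintro ⟨c, m, h⟩
    apply hmon
    refine ⟨conj c, m, ?_⟩
    intro z
    have := h (conj z)
    simp only [hg, Function.comp, Complex.conj_conj] at this
    have h2 := congrArg conj this
    simpa using h2
  have hfN := nondeg hf hmon
  have hgN := nondeg hgd hgm
  set m : ℂ := (analyticOrderNatAt f 0 : ℂ) with hm
  set K := connectedComponentIn (valueSet f \ T) x with hK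
  set Φ : ℂ × ℂ → ℂ × ℂ := fun p => (p.1 * p.2, phi f p.1) with hΦ
  have hgne : ∀ w, g w ≠ 0 ↔ f (conj w) ≠ 0 := by
    intro w
    simp [hg]
  have hmem : ∀ p ∈ Gam f g m T, Φ p ∈ valueSet f \ T := by
    rintro p ⟨h1, h2, h3, h4, h5, h6, h7, h8⟩
    refine ⟨⟨mul_ne_zero h1 h2, h6, h7, p, rfl, ⟨h3, rfl⟩, (hgne _).1 h4, ?_⟩, h8⟩
    rw [← phi_refl]
    exact h5.symm
  set S0 : Set (ℂ × ℂ) := {p | p ∈ Gam f g m T ∧ Φ p ∈ K} with hS0
  have hS0G : S0 ⊆ Gam f g m T := fun p hp => hp.1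
  have hP : ∀ (γ : ℂ → ℂ × ℂ) (A : Set ℂ), IsPreconnected A → ContinuousOn γ A →
      (∀ τ ∈ A, γ τ ∈ Gam f g m T) → ∀ τ1 ∈ A, γ τ1 ∈ S0 → ∀ τ ∈ A, γ τ ∈ S0 := by
    intro γ A hA hγ hγG τ1 hτ1 hγ1 τ hτ
    refine ⟨hγG τ hτ, ?_⟩
    have hcont : ContinuousOn (fun τ => Φ (γ τ)) A := by
      have h1 : ContinuousOn (fun τ => (γ τ).1) A := continuous_fst.comp_continuousOn hγ
      have h2 : ContinuousOn (fun τ => (γ τ).2) A := continuous_snd.comp_continuousOn hγ
      refine (h1.mul h2).prodMk ?_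
      intro τ hτ
      exact ContinuousAt.comp_continuousWithinAt (g := phi f) (f := fun τ => (γ τ).1)
        (phi_analyticAt hf (hγG τ hτ).2.2.1).continuousAt (h1 τ hτ)
    have himg : IsPreconnected ((fun τ => Φ (γ τ)) '' A) := hA.image _ hcont
    have hsub : (fun τ => Φ (γ τ)) '' A ⊆ valueSet f \ T := by
      rintro _ ⟨τ, hτ, rfl⟩
      exact hmem _ (hγG τ hτ)
    have h3 := himg.subset_connectedComponentIn (mem_image_of_mem _ hτ1) hsub
    have h4 : connectedComponentIn (valueSet f \ T) (Φ (γ τ1)) = K :=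
      (connectedComponentIn_eq hγ1.2).symm
    have h5 := h3 (mem_image_of_mem _ hτ)
    simp only [h4] at h5
    exact h5
  have hc2 : ∀ q ∈ closure S0, η ^ 2 ≤ ‖q.1 * q.2‖ := by
    have hcl : IsClosed {q : ℂ × ℂ | η ^ 2 ≤ ‖q.1 * q.2‖} :=
      isClosed_le continuous_const (continuous_fst.mul continuous_snd).norm
    exact closure_minimal (fun q hq => hcon _ hq.2) hcl
  have hcurve : ∀ q ∈ closure S0, OnCurve f g q := by
    have hdf : Continuous (deriv f) := by
      have : Differentiable ℂ (deriv f) := fun x => (hf.analyticAt x).deriv.differentiableAt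
      exact this.continuous
    have hdg : Continuous (deriv g) := by
      have : Differentiable ℂ (deriv g) := fun x => (hgd.analyticAt x).deriv.differentiableAt
      exact this.continuous
    have hcl : IsClosed {q : ℂ × ℂ | OnCurve f g q} := by
      apply isClosed_eq
      · exact (continuous_fst.mul (hdf.comp continuous_fst)).mul (hgd.continuous.comp continuous_snd)
      · exact (continuous_snd.mul (hdg.comp continuous_snd)).mul (hf.continuous.comp continuous_fst)
    refine closure_minimal (fun q hq => ?_) hcl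
    obtain ⟨h1, h2, h3, h4, h5, _⟩ := hq.1
    show q.1 * deriv f q.1 * g q.2 = q.2 * deriv g q.2 * f q.1
    rw [phi, phi, div_eq_div_iff h3 h4] at h5
    exact h5
  have hne : (closure S0).Nonempty := by
    obtain ⟨⟨h1, h2, h3, p, hp1, ⟨hp2, hp3⟩, hp4, hp5⟩, h4⟩ := hx
    have hp0 : p.1 ≠ 0 ∧ p.2 ≠ 0 := by
      rw [← hp1] at h1
      exact ⟨left_ne_zero_of_mul h1, right_ne_zero_of_mul h1⟩
    have hΦp : Φ p = x := Prod.ext hp1 hp3
    refine ⟨p, subset_closure ⟨⟨hp0.1, hp0.2, hp2, (hgne _).2 hp4, ?_, ?_, ?_, ?_⟩, ?_⟩⟩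
    · rw [phi_refl, hp5]
      exact hp3
    · show logDer f p.1 ≠ 0
      rw [hp3]; exact h2
    · show logDer f p.1 ≠ m
      rw [hp3]; exact h3
    · show Φ p ∉ T
      rw [hΦp]; exact h4
    · rw [hΦp]
      exact mem_connectedComponentIn ⟨⟨h1, h2, h3, p, hp1, ⟨hp2, hp3⟩, hp4, hp5⟩, h4⟩
  exact no_curve hf hgd hfN.ne_zero hgN.ne_zero (refl_order hf) hmon isClosed_closure hne hcurve
    (by positivity : 0 < η ^ 2) hc2
    (fun z1 w1 h hz1 hw1 => branch hfN hgN hT hS0G hP hz1 hw1 h)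

/-- **Q1 is true.** Let `f` be entire and not a monomial. For every admissible set `T`, every
`x ∈ I \ T` and every `η > 0` the connected component of `x` in `I \ T` contains a point `(s, a)`
with `|s| < η ^ 2`. The same holds for every countable set `T`. -/
theorem result (f : ℂ → ℂ) (hf : Differentiable ℂ f) (hmon : ¬ IsMonomial f) :
    (∀ T : Set (ℂ × ℂ), Admissible f T → ∀ x ∈ valueSet f \ T, ∀ η : ℝ, 0 < η →
      ∃ y ∈ connectedComponentIn (valueSet f \ T) x, ‖y.1‖ < η ^ 2) ∧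
    (∀ T : Set (ℂ × ℂ), T.Countable → ∀ x ∈ valueSet f \ T, ∀ η : ℝ, 0 < η →
      ∃ y ∈ connectedComponentIn (valueSet f \ T) x, ‖y.1‖ < η ^ 2) :=
  ⟨fun T hT x hx η hη => general f hf hmon T hT.countable x hx η hη,
    fun T hT x hx η hη => general f hf hmon T hT x hx η hη⟩

end Pool.Agent.Results.MP_d0f9b4_an.SmallProducts
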